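import Mathlib
import Pool.Agent.W241.Pair

/-! # MP_edeaa2_an: the conjecture of Cassels and Swinnerton-Dyer is equivalent to the absence of
pairs of products with `d - 1` common factors

Let `d ≥ 3`. For a real matrix `g` let `F_g` be the product of the linear forms given by its rows.
The following are equivalent.

1. Every product `F_g`, `det g ≠ 0`, which is not proportional to an integral form takes
   arbitrarily small values at nonzero integer points.
2. There are no linearly independent forms `L_1, ..., L_d` and indices `i ≠ j` such that both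
   `∏ L_k` and `(L_i + L_j) ∏_{k ≠ i} L_k` are bounded away from zero at the nonzero integer
   points.
3. The same as 2, where in addition each of the two matrices is a limit of matrices `t g' γ` with
   `g'` the other one, `t` positive diagonal of determinant one and `γ ∈ GL_d(ℤ)` (so that the two
   sets of absolute values have the same closure). -/

open Matrix

namespace Pool.Agent.Results.MP_edeaa2_an.PairCriterion

theorem result (d : ℕ) (hd : 3 ≤ d) :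
    List.TFAE [
      (∀ g : Matrix (Fin d) (Fin d) ℝ, g.det ≠ 0 →
        (¬ ∃ c : ℝ, c ≠ 0 ∧ ∀ m : Fin d →₀ ℕ, ∃ z : ℤ, MvPolynomial.coeff m
          (c • (∏ i : Fin d, ∑ j : Fin d,
            MvPolynomial.C (g i j) * MvPolynomial.X j : MvPolynomial (Fin d) ℝ)) = (z : ℝ)) →
        ∀ ε : ℝ, 0 < ε → ∃ x : Fin d → ℤ, x ≠ 0 ∧
          |∏ i : Fin d, ∑ j : Fin d, g i j * (x j : ℝ)| < ε),
      (¬ ∃ (g h : Matrix (Fin d) (Fin d) ℝ) (i j : Fin d) (ν : ℝ),
        g.det ≠ 0 ∧ i ≠ j ∧ 0 < ν ∧ h = g.updateRow i (g i + g j) ∧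
        (∀ x : Fin d → ℤ, x ≠ 0 → ν ≤ |∏ k : Fin d, ∑ l : Fin d, g k l * (x l : ℝ)|) ∧
        (∀ x : Fin d → ℤ, x ≠ 0 → ν ≤ |∏ k : Fin d, ∑ l : Fin d, h k l * (x l : ℝ)|)),
      (¬ ∃ (g h : Matrix (Fin d) (Fin d) ℝ) (i j : Fin d) (ν : ℝ),
        g.det ≠ 0 ∧ i ≠ j ∧ 0 < ν ∧ h = g.updateRow i (g i + g j) ∧
        (∀ x : Fin d → ℤ, x ≠ 0 → ν ≤ |∏ k : Fin d, ∑ l : Fin d, g k l * (x l : ℝ)|) ∧
        (∀ x : Fin d → ℤ, x ≠ 0 → ν ≤ |∏ k : Fin d, ∑ l : Fin d, h k l * (x l : ℝ)|) ∧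
        (∀ ε : ℝ, 0 < ε → ∃ (t : Fin d → ℝ) (γ : Matrix (Fin d) (Fin d) ℤ), (∀ k, 0 < t k) ∧
          ∏ k, t k = 1 ∧ IsUnit γ.det ∧
          ∀ k l, |(Matrix.diagonal t * g * γ.map (Int.cast : ℤ → ℝ)) k l - h k l| < ε) ∧
        (∀ ε : ℝ, 0 < ε → ∃ (t : Fin d → ℝ) (γ : Matrix (Fin d) (Fin d) ℤ), (∀ k, 0 < t k) ∧
          ∏ k, t k = 1 ∧ IsUnit γ.det ∧
          ∀ k l, |(Matrix.diagonal t * h * γ.map (Int.cast : ℤ → ℝ)) k l - g k l| < ε))] := by
  tfae_have 1 → 2 := (Pool.Agent.W241.Lac.pair_main hd).1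
  tfae_have 2 → 3 := by
    rintro hno ⟨g, h, i, j, ν, hg, hij, hν, hh, h1, h2, -, -⟩
    exact hno ⟨g, h, i, j, ν, hg, hij, hν, hh, h1, h2⟩
  tfae_have 3 → 1 := by
    intro hno
    refine (Pool.Agent.W241.Lac.pair_main hd).2 ?_
    rintro ⟨g, h, i, j, ν, hg, hij, hν, hh, h1, h2, h3, h4⟩
    exact hno ⟨g, h, i, j, ν, hg, hij, hν, hh, h1, h2,
      Pool.Agent.W241.Lac.approx_of_closure h3, Pool.Agent.W241.Lac.approx_of_closure h4⟩
  tfae_finish

end Pool.Agent.Results.MP_edeaa2_an.PairCriterion
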