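import Pool.Agent.W9.PL.Main
import Pool.Agent.W308.PLN.Num

/-!
Products of `n` real linear forms in `n` variables: for all sufficiently large `n`, every product
`F` of `n` linearly independent real linear forms takes, at a nonzero integer point, a value
smaller in absolute value than `|det| / √59 ^ n`.

The proof applies the noncommutative linear programming bound (product theorem of the starting
files) to the metric `log (1 + |x - y|)` on the line, with states whose covariance is invariant
under the rotations of the projective line.
-/

namespace Pool.Agent.Results.MP_edeaa2_an.UniversalBound

/-- For all large `n` and every invertible real `n × n` matrix `g` there is a nonzero integer point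
`x` at which the product of the `n` linear forms given by the rows of `g` is smaller in absolute
value than `|det g| / √59 ^ n`. -/
theorem result :
    ∃ n₀ : ℕ, ∀ n ≥ n₀, ∀ g : Matrix (Fin n) (Fin n) ℝ, g.det ≠ 0 →
      ∃ x : Fin n → ℤ, x ≠ 0 ∧ |∏ i, ∑ j, g i j * (x j : ℝ)| < |g.det| / √59 ^ n :=
  Pool.Agent.W9.PL.main Pool.Agent.W308.PLN.num

end Pool.Agent.Results.MP_edeaa2_an.UniversalBound
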